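import Pool.Agent.H.h20E.Synd

/-!
Pairs of morphisms which are balanced on the words: every `q` consecutive letters which are not erased have an image
which is at least as long as the images of all letters of the word.
-/

set_option autoImplicit false

namespace Pool.H20F

open Pool.H20E

variable {Γ A : Type}

/-- `(g, h)` is `q`-balanced on `z`: the image under `g` of every `q` consecutive letters of `z` which `g` does not
erase is at least as long as the images of all letters of `z` under `g` and `h`, and the same for `h`. -/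
def Bal [DecidableEq A] (q : ℕ) (g h : Γ → List A) (z : List Γ) : Prop :=
  (∀ y, y <:+: z.filter (fun a => g a ≠ []) → y.length = q →
    ∀ a ∈ z, (g a).length ≤ (y.flatMap g).length ∧ (h a).length ≤ (y.flatMap g).length) ∧
  (∀ y, y <:+: z.filter (fun a => h a ≠ []) → y.length = q →
    ∀ a ∈ z, (g a).length ≤ (y.flatMap h).length ∧ (h a).length ≤ (y.flatMap h).length)

theorem flatMap_filter [DecidableEq A] (g : Γ → List A) (z : List Γ) :
    (z.filter (fun a => g a ≠ [])).flatMap g = z.flatMap g := by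
  induction z with
  | nil => rfl
  | cons a z ih =>
    by_cases h : g a = []
    · rw [List.filter_cons_of_neg (by simp [h]), ih, List.flatMap_cons, h, List.nil_append]
    · rw [List.filter_cons_of_pos (by simp [h]), List.flatMap_cons, ih, List.flatMap_cons]

/-- a factor of a filtered word is the filtered word of a factor -/
theorem infix_filter (p : Γ → Bool) {y z : List Γ} (h : y <:+: z.filter p) :
    ∃ y', y' <:+: z ∧ y'.filter p = y := by
  obtain ⟨s, t, hst⟩ := h
  obtain ⟨l₁, l₂, e1, e2, e3⟩ := List.filter_eq_append_iff.1 hst.symm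
  obtain ⟨l₃, l₄, e4, e5, e6⟩ := List.filter_eq_append_iff.1 e2
  exact ⟨l₄, ⟨l₃, l₂, by rw [e1, e4]⟩, e6⟩

/-- Chain bound for balanced pairs. -/
theorem bal_chain (m q : ℕ) : ∃ K : ℕ, ∀ (A : Type) [DecidableEq A] (t : ℕ) (z : ℕ → List (Fin m))
    (g h : ℕ → Fin m → List A),
    (∀ i < t, ∀ j ≤ i, (z j).flatMap (g i) = (z j).flatMap (h i)) →
    (∀ i < t, (z (i + 1)).flatMap (g i) ≠ (z (i + 1)).flatMap (h i)) →
    (∀ i < t, ∀ j ≤ i, Bal q (g i) (h i) (z j)) → t ≤ K := by
  classical
  obtain ⟨K, hK⟩ := chain (Fin m ⊕ Fin m) q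
  refine ⟨Fintype.card (Finset (Fin m) × Finset (Fin m) × Finset (Fin m)) * (K + 1), ?_⟩
  intro A _ t z g h hag hne hbal
  by_contra ht
  push Not at ht
  -- erased letters
  let er : (Fin m → List A) → Finset (Fin m) := fun f => Finset.univ.filter (fun a => f a = [])
  obtain ⟨c, hc⟩ := Fintype.exists_lt_card_fiber_of_mul_lt_card
    (fun j : Fin (t + 1) => ((z j).toFinset, er (g ((j : ℕ) - 1)), er (h ((j : ℕ) - 1))))
    (n := K + 1) (by rw [Fintype.card_fin]; omega)
  set J := Finset.univ.filter (fun j : Fin (t + 1) =>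
    ((z j).toFinset, er (g ((j : ℕ) - 1)), er (h ((j : ℕ) - 1))) = c) with hJ
  obtain ⟨J', hJ', hcard⟩ := Finset.exists_subset_card_eq (show K + 2 ≤ J.card by omega)
  let φ : Fin (K + 2) ↪o Fin (t + 1) := J'.orderEmbOfFin hcard
  have hφ : ∀ k, φ k ∈ J := fun k => hJ' (Finset.orderEmbOfFin_mem J' hcard k)
  have hφs : ∀ k, ((z (φ k)).toFinset, er (g ((φ k : ℕ) - 1)), er (h ((φ k : ℕ) - 1))) = c :=
    fun k => (Finset.mem_filter.1 (hφ k)).2
  let ψ : ℕ → ℕ := fun k => if hk : k < K + 2 then (φ ⟨k, hk⟩ : ℕ) else 0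
  have hψ : ∀ k (hk : k < K + 2), ψ k = (φ ⟨k, hk⟩ : ℕ) := fun k hk => by simp only [ψ, hk, dif_pos]
  have hψmono : ∀ a b, a < b → b < K + 2 → ψ a < ψ b := by
    intro a b hab hb
    rw [hψ a (by omega), hψ b hb]
    have : φ ⟨a, by omega⟩ < φ ⟨b, hb⟩ := φ.strictMono (by simpa using hab)
    exact this
  have hψle : ∀ a, a < K + 2 → ψ a ≤ t := by
    intro a ha
    rw [hψ a ha]
    have := (φ ⟨a, ha⟩).2
    omega
  have hψc : ∀ a, a < K + 2 → ((z (ψ a)).toFinset, er (g (ψ a - 1)), er (h (ψ a - 1))) = c := by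
    intro a ha
    rw [hψ a ha]
    exact hφs _
  obtain ⟨s, Eg, Eh⟩ := c
  have hs : ∀ a, a < K + 2 → ∀ b, b ∈ z (ψ a) ↔ b ∈ s := by
    intro a ha b
    have := hψc a ha
    simp only [Prod.mk.injEq] at this
    rw [← this.1, List.mem_toFinset]
  have hEg : ∀ a, a < K + 2 → ∀ b, g (ψ a - 1) b = [] ↔ b ∈ Eg := by
    intro a ha b
    have := hψc a ha
    simp only [Prod.mk.injEq] at this
    rw [← this.2.1, Finset.mem_filter]
    simp
  have hEh : ∀ a, a < K + 2 → ∀ b, h (ψ a - 1) b = [] ↔ b ∈ Eh := by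
    intro a ha b
    have := hψc a ha
    simp only [Prod.mk.injEq] at this
    rw [← this.2.2, Finset.mem_filter]
    simp
  -- deleting the erased letters
  let U : List (Fin m) → List (Fin m) := fun w => w.filter (fun a => a ∉ Eg)
  let V : List (Fin m) → List (Fin m) := fun w => w.filter (fun a => a ∉ Eh)
  have hU : ∀ a, a < K + 2 → ∀ w, w.filter (fun b => g (ψ a - 1) b ≠ []) = U w := by
    intro a ha w
    apply List.filter_congr
    intro b _
    simp only [ne_eq, hEg a ha b]
  have hV : ∀ a, a < K + 2 → ∀ w, w.filter (fun b => h (ψ a - 1) b ≠ []) = V w := by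
    intro a ha w
    apply List.filter_congr
    intro b _
    simp only [ne_eq, hEh a ha b]
  have e1 : ∀ r, r + 1 < K + 2 → ∀ w : List (Fin m), ((U w).map Sum.inl).flatMap
      (Sum.elim (g (ψ (r + 1) - 1)) (h (ψ (r + 1) - 1))) = w.flatMap (g (ψ (r + 1) - 1)) := by
    intro r hr w
    rw [List.flatMap_map, ← flatMap_filter (g (ψ (r + 1) - 1)) w, hU (r + 1) hr]
    rfl
  have e2 : ∀ r, r + 1 < K + 2 → ∀ w : List (Fin m), ((V w).map Sum.inr).flatMap
      (Sum.elim (g (ψ (r + 1) - 1)) (h (ψ (r + 1) - 1))) = w.flatMap (h (ψ (r + 1) - 1)) := by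
    intro r hr w
    rw [List.flatMap_map, ← flatMap_filter (h (ψ (r + 1) - 1)) w, hV (r + 1) hr]
    rfl
  have h1 := hK A (K + 1) (fun r => (U (z (ψ r))).map Sum.inl) (fun r => (V (z (ψ r))).map Sum.inr)
    (fun r => Sum.elim (g (ψ (r + 1) - 1)) (h (ψ (r + 1) - 1))) ?_ ?_ ?_
  · omega
  · intro i hi j hj
    rw [e1 i (by omega), e2 i (by omega)]
    have h2 := hψmono j (i + 1) (by omega) (by omega)
    have h3 := hψle (i + 1) (by omega)
    exact hag _ (by omega) _ (by omega)
  · intro i hi
    rw [e1 i (by omega), e2 i (by omega)]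
    have h2 := hψmono 0 (i + 1) (by omega) (by omega)
    have h3 := hψle (i + 1) (by omega)
    have h4 := hne (ψ (i + 1) - 1) (by omega)
    have h5 : ψ (i + 1) - 1 + 1 = ψ (i + 1) := by omega
    rw [h5] at h4
    exact h4
  · intro i hi
    set G := s.sup (fun a => max (g (ψ (i + 1) - 1) a).length (h (ψ (i + 1) - 1) a).length) with hG
    have hGle : ∀ a ∈ s, (g (ψ (i + 1) - 1) a).length ≤ G ∧ (h (ψ (i + 1) - 1) a).length ≤ G := by
      intro a ha
      have := Finset.le_sup (f := fun a => max (g (ψ (i + 1) - 1) a).length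
        (h (ψ (i + 1) - 1) a).length) ha
      exact ⟨(le_max_left _ _).trans this, (le_max_right _ _).trans this⟩
    refine ⟨G, fun j hj => ?_⟩
    have h2 := hψmono j (i + 1) (by omega) (by omega)
    have h3 := hψle (i + 1) (by omega)
    obtain ⟨b1, b2⟩ := hbal (ψ (i + 1) - 1) (by omega) (ψ j) (by omega)
    rw [hU (i + 1) (by omega)] at b1
    rw [hV (i + 1) (by omega)] at b2
    constructor
    · refine win_map ?_ ?_
      · intro a ha
        exact (hGle a ((hs j (by omega) a).1 (List.mem_of_mem_filter ha))).1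
      · intro u hu hul
        refine Finset.sup_le fun a ha => ?_
        have h4 := b1 u hu hul a ((hs j (by omega) a).2 ha)
        exact max_le h4.1 h4.2
    · refine win_map ?_ ?_
      · intro a ha
        exact (hGle a ((hs j (by omega) a).1 (List.mem_of_mem_filter ha))).2
      · intro u hu hul
        refine Finset.sup_le fun a ha => ?_
        have h4 := b2 u hu hul a ((hs j (by omega) a).2 ha)
        exact max_le h4.1 h4.2

end Pool.H20F
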